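import Mathlib
import Pool.Agent.W2helper5.PosForm

set_option autoImplicit false

/-!
# MP_18f540_nt: linear forms with positive coefficients

For real `w > 2` let `E(w)` be the set of the points `(ξ, η)` of the Euclidean plane for which there is a constant
`c > 0` such that `|p ξ + q η + r| < c max(p, q)^(-w)` for infinitely many integer triples `(p, q, r)` with `p > 0`
and `q > 0`. We prove that `dim_H E(w) = 1 + 3 / (w + 1)` for every real `w > 2`.

Lower bound. For a point with infinitely many good rational lines (no condition on the signs of the coefficients;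
dimension `1 + 3 / (w + 1)` by the starting files on intermediate exponents), infinitely many of the forms have one of
finitely many sign patterns of the two coefficients. Forms with coefficients of opposite sign become positive
after `(ξ, η) ↦ (ξ, -η)`, and forms with a zero coefficient become positive after one of the
shears `(ξ, η) ↦ (ξ, η - ξ)`, `(ξ, η) ↦ (ξ - η, η)`. So the set without sign condition is contained in a union of four
linear images of `E(w)`.
-/

open Pool.Agent.W2helper5

namespace Pool.Agent.Results.MP_18f540_nt.ExactDimension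

/-- The set `E(w)` of the points `(ξ, η)` of the Euclidean plane for which there is `c > 0` such that
`|p ξ + q η + r| < c (max(p, q))^(-w)` for infinitely many integer triples `(p, q, r)` with `p > 0`, `q > 0`. -/
def E (w : ℝ) : Set (EuclideanSpace ℝ (Fin 2)) :=
  {θ | ∃ c : ℝ, 0 < c ∧ {t : ℤ × ℤ × ℤ | 0 < t.1 ∧ 0 < t.2.1 ∧
    |(t.1 : ℝ) * θ 0 + (t.2.1 : ℝ) * θ 1 + (t.2.2 : ℝ)| < c * ((max t.1 t.2.1 : ℤ) : ℝ) ^ (-w)}.Infinite}

/-- For every real `w > 2` the Hausdorff dimension of `E(w)` is `1 + 3 / (w + 1)`. -/
theorem result (w : ℝ) (hw : 2 < w) : dimH (E w) = ENNReal.ofReal (1 + 3 / (w + 1)) := by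
  rw [← PosForm.dim_E' w hw]
  exact ContinuousLinearEquiv.dimH_preimage (EuclideanSpace.equiv (Fin 2) ℝ) (PosForm.E' w)

end Pool.Agent.Results.MP_18f540_nt.ExactDimension
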